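import Mathlib

set_option autoImplicit false
open MeasureTheory Set Filter Topology

namespace Pool.Agent.Lib.MP_0b691a_pr

/-- positive part power -/
noncomputable def hp (p x : ℝ) : ℝ := (max x 0) ^ p

lemma hp_nonneg (p x : ℝ) : 0 ≤ hp p x := Real.rpow_nonneg (le_max_right _ _) _

lemma hp_of_nonpos {p x : ℝ} (hp0 : p ≠ 0) (hx : x ≤ 0) : hp p x = 0 := by
  unfold hp; rw [max_eq_right hx, Real.zero_rpow hp0]

lemma hp_of_nonneg {p x : ℝ} (hx : 0 ≤ x) : hp p x = x ^ p := by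
  unfold hp; rw [max_eq_left hx]

lemma hp_continuous {p : ℝ} (h : 0 ≤ p) : Continuous (hp p) := by
  unfold hp
  exact (continuous_id.max continuous_const).rpow_const (fun x => Or.inr h)

lemma hp_mono {p x R : ℝ} (h : 0 ≤ p) (hx : x ≤ R) (hR : 0 ≤ R) : hp p x ≤ R ^ p := by
  unfold hp
  exact Real.rpow_le_rpow (le_max_right _ _) (max_le hx hR) h

lemma hp_hasDerivAt {p : ℝ} (h : 1 < p) (x : ℝ) :
    HasDerivAt (hp p) (p * hp (p - 1) x) x := by
  rcases lt_trichotomy x 0 with hx | hx | hx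
  · have h1 : hp p =ᶠ[𝓝 x] fun _ => (0 : ℝ) := by
      filter_upwards [Iio_mem_nhds hx] with y hy
      exact hp_of_nonpos (by linarith) (le_of_lt hy)
    rw [hp_of_nonpos (by linarith) hx.le, mul_zero]
    exact (hasDerivAt_const x (0:ℝ)).congr_of_eventuallyEq h1
  · subst hx
    have hz : p * hp (p - 1) 0 = 0 := by
      rw [hp_of_nonpos (by linarith) le_rfl, mul_zero]
    rw [hz]
    have h1 : HasDerivWithinAt (hp p) 0 (Iic 0) 0 := by
      have := (hasDerivWithinAt_const (0:ℝ) (Iic (0:ℝ)) (0:ℝ))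
      refine this.congr (fun y hy => hp_of_nonpos (by linarith) hy) (hp_of_nonpos (by linarith) le_rfl)
    have h2 : HasDerivWithinAt (hp p) 0 (Ici 0) 0 := by
      have := (Real.hasDerivAt_rpow_const (x := 0) (p := p) (Or.inr h.le)).hasDerivWithinAt (s := Ici 0)
      rw [Real.zero_rpow (by linarith), mul_zero] at this
      refine this.congr (fun y hy => hp_of_nonneg hy) (hp_of_nonneg le_rfl)
    have h3 := h1.union h2
    rw [Iic_union_Ici] at h3
    exact hasDerivWithinAt_univ.mp h3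
  · have h1 : hp p =ᶠ[𝓝 x] fun y => y ^ p := by
      filter_upwards [Ioi_mem_nhds hx] with y hy
      exact hp_of_nonneg (le_of_lt hy)
    rw [hp_of_nonneg hx.le]
    exact (Real.hasDerivAt_rpow_const (Or.inl hx.ne')).congr_of_eventuallyEq h1

/-- Lower bound of Gamma. -/
lemma gamma_lower {s M : ℝ} (hs : 1 ≤ s) (hM : 0 < M) :
    M ^ (s - 1) * Real.exp (-(M + 1)) ≤ Real.Gamma s := by
  rw [Real.Gamma_eq_integral (by linarith)]
  have hint : IntegrableOn (fun x => Real.exp (-x) * x ^ (s - 1)) (Ioi 0) :=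
    Real.GammaIntegral_convergent (by linarith)
  have hsub : Ioc M (M+1) ⊆ Ioi 0 := fun x hx => lt_trans hM hx.1
  have h1 : ∫ x in Ioc M (M+1), Real.exp (-x) * x ^ (s - 1) ≤ ∫ x in Ioi 0, Real.exp (-x) * x ^ (s - 1) := by
    apply setIntegral_mono_set hint
    · filter_upwards [ae_restrict_mem measurableSet_Ioi] with x hx
      exact mul_nonneg (Real.exp_nonneg _) (Real.rpow_nonneg (le_of_lt hx) _)
    · exact hsub.eventuallyLE
  refine le_trans ?_ h1
  have h2 : ∫ x in Ioc M (M+1), M ^ (s - 1) * Real.exp (-(M + 1)) = M ^ (s - 1) * Real.exp (-(M + 1)) := by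
    rw [setIntegral_const]
    simp
  rw [← h2]
  apply setIntegral_mono_on
  · exact integrableOn_const (by simp) enorm_ne_top
  · exact hint.mono_set hsub
  · exact measurableSet_Ioc
  · intro x hx
    rw [mul_comm]
    apply mul_le_mul
    · apply Real.exp_le_exp.mpr; linarith [hx.2]
    · apply Real.rpow_le_rpow hM.le hx.1.le; linarith
    · exact Real.rpow_nonneg hM.le _
    · exact Real.exp_nonneg _

/-- alternating binomial combination of shifts -/
noncomputable def T (p : ℝ) (j : ℕ) (x : ℝ) : ℝ :=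
  ∑ n ∈ Finset.range (j + 1), (-1 : ℝ) ^ n * (j.choose n) * hp p (x - n)

lemma T_hasDerivAt {p : ℝ} (h : 1 < p) (j : ℕ) (x : ℝ) :
    HasDerivAt (T p j) (p * T (p - 1) j x) x := by
  unfold T
  rw [Finset.mul_sum]
  apply HasDerivAt.fun_sum
  intro n _
  have h1 : HasDerivAt (fun x : ℝ => hp p (x - n)) (p * hp (p - 1) (x - n)) x :=
    (hp_hasDerivAt h (x - n)).comp_sub_const x (n:ℝ)
  have h2 := h1.const_mul ((-1 : ℝ) ^ n * (j.choose n))
  exact h2.congr_deriv (by ring)

lemma T_continuous {p : ℝ} (h : 0 ≤ p) (j : ℕ) : Continuous (T p j) := by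
  unfold T
  apply continuous_finsetSum
  intro n _
  exact continuous_const.mul ((hp_continuous h).comp (continuous_id.sub continuous_const))

lemma sum_choose_real (j : ℕ) : ∑ n ∈ Finset.range (j + 1), ((j.choose n : ℕ) : ℝ) = 2 ^ j := by
  have := Nat.sum_range_choose j
  exact_mod_cast this

lemma T_bound {p : ℝ} (h : 0 ≤ p) (j : ℕ) {x R : ℝ} (hx : x ≤ R) (hR : 0 ≤ R) :
    |T p j x| ≤ 2 ^ j * R ^ p := by
  unfold T
  calc |∑ n ∈ Finset.range (j + 1), (-1 : ℝ) ^ n * (j.choose n) * hp p (x - n)|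
      ≤ ∑ n ∈ Finset.range (j + 1), |(-1 : ℝ) ^ n * (j.choose n) * hp p (x - n)| :=
        Finset.abs_sum_le_sum_abs _ _
    _ ≤ ∑ n ∈ Finset.range (j + 1), ((j.choose n : ℕ) : ℝ) * R ^ p := by
        apply Finset.sum_le_sum
        intro n _
        rw [abs_mul, abs_mul, abs_pow, abs_neg, abs_one, one_pow, one_mul, Nat.abs_cast,
          abs_of_nonneg (hp_nonneg _ _)]
        apply mul_le_mul_of_nonneg_left _ (Nat.cast_nonneg _)
        apply hp_mono h _ hR
        have : (0:ℝ) ≤ n := Nat.cast_nonneg _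
        linarith
    _ = 2 ^ j * R ^ p := by
        rw [← Finset.sum_mul, sum_choose_real]

/-- exponent sequence -/
noncomputable def s (j : ℕ) : ℝ := 7 / 4 * ((j : ℝ) + 1)

/-- the j-th term of the scale function -/
noncomputable def g (j : ℕ) (x : ℝ) : ℝ := T (s j - 1) j x / Real.Gamma (s j)

/-- first derivative of the j-th term -/
noncomputable def g1 (j : ℕ) (x : ℝ) : ℝ := (s j - 1) * T (s j - 2) j x / Real.Gamma (s j)

/-- second derivative of the j-th term -/
noncomputable def g2 (j : ℕ) (x : ℝ) : ℝ :=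
  (s j - 1) * (s j - 2) * T (s j - 3) j x / Real.Gamma (s j)

/-- majorant -/
noncomputable def u (R : ℝ) (j : ℕ) : ℝ :=
  (s (j + 1)) ^ 2 * (2 ^ (j + 1) * R ^ (s (j + 1) - 1)) / Real.Gamma (s (j + 1))

lemma s_succ_ge (j : ℕ) : 7 / 2 ≤ s (j + 1) := by
  unfold s
  have : (0:ℝ) ≤ j := Nat.cast_nonneg _
  push_cast
  linarith

lemma u_summable {R : ℝ} (hR : 1 ≤ R) : Summable (u R) := by
  have hb : ∀ j, u R j ≤ (49 / 2 * Real.exp (4 * R + 1)) * (((j : ℝ) + 1) ^ 2 * (1/2) ^ j) := by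
    intro j
    have hs := s_succ_ge j
    have hM : (0:ℝ) < 4 * R := by linarith
    have hG := gamma_lower (s := s (j+1)) (M := 4 * R) (by linarith) hM
    have hGpos : 0 < Real.Gamma (s (j+1)) := Real.Gamma_pos_of_pos (by linarith)
    unfold u
    rw [div_le_iff₀ hGpos]
    have hj : (0:ℝ) ≤ j := Nat.cast_nonneg _
    have hexp : Real.exp (4 * R + 1) * Real.exp (-(4 * R + 1)) = 1 := by
      rw [← Real.exp_add]; simp
    have h4 : (4 * R) ^ (s (j+1) - 1) = 4 ^ (s (j+1) - 1) * R ^ (s (j+1) - 1) := by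
      rw [Real.mul_rpow (by norm_num) (by linarith)]
    have h5 : (4:ℝ) ^ j ≤ 4 ^ (s (j+1) - 1) := by
      rw [← Real.rpow_natCast]
      apply Real.rpow_le_rpow_of_exponent_le (by norm_num)
      unfold s; push_cast; linarith
    have hRp : 0 < R ^ (s (j+1) - 1) := Real.rpow_pos_of_pos (by linarith) _
    have h6 : (49 / 2 * Real.exp (4 * R + 1)) * (((j : ℝ) + 1) ^ 2 * (1/2) ^ j) *
        ((4 * R) ^ (s (j+1) - 1) * Real.exp (-(4 * R + 1))) ≤
        (49 / 2 * Real.exp (4 * R + 1)) * (((j : ℝ) + 1) ^ 2 * (1/2) ^ j) * Real.Gamma (s (j+1)) := by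
      apply mul_le_mul_of_nonneg_left hG
      positivity
    refine le_trans ?_ h6
    rw [h4]
    have h7 : (49 / 2 * Real.exp (4 * R + 1)) * (((j : ℝ) + 1) ^ 2 * (1/2) ^ j) *
        (4 ^ (s (j+1) - 1) * R ^ (s (j+1) - 1) * Real.exp (-(4 * R + 1)))
        = (49 / 2) * (((j : ℝ) + 1) ^ 2 * (1/2) ^ j) * (4 ^ (s (j+1) - 1) * R ^ (s (j+1) - 1)) *
          (Real.exp (4 * R + 1) * Real.exp (-(4 * R + 1))) := by ring
    rw [h7, hexp, mul_one]
    have h8 : (49 / 2:ℝ) * (((j : ℝ) + 1) ^ 2 * (1/2) ^ j) * (4 ^ j * R ^ (s (j+1) - 1)) ≤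
        (49 / 2) * (((j : ℝ) + 1) ^ 2 * (1/2) ^ j) * (4 ^ (s (j+1) - 1) * R ^ (s (j+1) - 1)) := by
      apply mul_le_mul_of_nonneg_left _ (by positivity)
      exact mul_le_mul_of_nonneg_right h5 hRp.le
    refine le_trans ?_ h8
    have h9 : ((1:ℝ)/2) ^ j * 4 ^ j = 2 ^ j := by
      rw [← mul_pow]; norm_num
    have h10 : (49 / 2:ℝ) * (((j : ℝ) + 1) ^ 2 * (1/2) ^ j) * (4 ^ j * R ^ (s (j+1) - 1))
        = ((49 / 2) * ((j:ℝ) + 1) ^ 2) * (((1/2) ^ j * 4 ^ j) * R ^ (s (j+1) - 1)) := by ring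
    rw [h10, h9]
    have h11 : (s (j+1)) ^ 2 * 2 ≤ 49 / 2 * ((j:ℝ)+1)^2 := by
      unfold s; push_cast; nlinarith
    have h12 : (s (j+1)) ^ 2 * (2 ^ (j+1) * R ^ (s (j+1) - 1)) =
      ((s (j+1)) ^ 2 * 2) * (2 ^ j * R ^ (s (j+1) - 1)) := by ring
    rw [h12]
    exact mul_le_mul_of_nonneg_right h11 (by positivity)
  have hnn : ∀ j, 0 ≤ u R j := by
    intro j
    have hs := s_succ_ge j
    have hGpos : 0 < Real.Gamma (s (j+1)) := Real.Gamma_pos_of_pos (by linarith)
    unfold u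
    have hRp : 0 < R ^ (s (j+1) - 1) := Real.rpow_pos_of_pos (by linarith) _
    positivity
  refine Summable.of_nonneg_of_le hnn hb ?_
  apply Summable.mul_left
  have h0 : Summable (fun j : ℕ => ((j:ℝ)) ^ 2 * (1/2) ^ j) :=
    summable_pow_mul_geometric_of_norm_lt_one 2 (by norm_num)
  have h1 := (summable_nat_add_iff 1).mpr h0
  have h2 := h1.mul_left 2
  refine h2.congr ?_
  intro j
  push_cast
  rw [pow_succ]
  ring

lemma g_bound {R : ℝ} (hR : 1 ≤ R) (j : ℕ) {x : ℝ} (hx : x ≤ R) : ‖g (j+1) x‖ ≤ u R j := by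
  have hs := s_succ_ge j
  have hGpos : 0 < Real.Gamma (s (j+1)) := Real.Gamma_pos_of_pos (by linarith)
  unfold g u
  rw [Real.norm_eq_abs, abs_div, abs_of_pos hGpos]
  apply div_le_div_of_nonneg_right _ hGpos.le
  have h1 := T_bound (p := s (j+1) - 1) (by linarith) (j+1) hx (by linarith)
  have hRp : 0 < R ^ (s (j+1) - 1) := Real.rpow_pos_of_pos (by linarith) _
  have h2 : (1:ℝ) * (2 ^ (j + 1) * R ^ (s (j + 1) - 1)) ≤ s (j + 1) ^ 2 * (2 ^ (j + 1) * R ^ (s (j + 1) - 1)) := by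
    apply mul_le_mul_of_nonneg_right _ (by positivity)
    nlinarith
  linarith

lemma g1_bound {R : ℝ} (hR : 1 ≤ R) (j : ℕ) {x : ℝ} (hx : x ≤ R) : ‖g1 (j+1) x‖ ≤ u R j := by
  have hs := s_succ_ge j
  have hGpos : 0 < Real.Gamma (s (j+1)) := Real.Gamma_pos_of_pos (by linarith)
  unfold g1 u
  rw [Real.norm_eq_abs, abs_div, abs_of_pos hGpos, abs_mul]
  apply div_le_div_of_nonneg_right _ hGpos.le
  have h1 := T_bound (p := s (j+1) - 2) (by linarith) (j+1) hx (by linarith)
  have hRp : R ^ (s (j+1) - 2) ≤ R ^ (s (j+1) - 1) :=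
    Real.rpow_le_rpow_of_exponent_le hR (by linarith)
  have hRp' : 0 < R ^ (s (j+1) - 2) := Real.rpow_pos_of_pos (by linarith) _
  rw [abs_of_nonneg (by linarith : (0:ℝ) ≤ s (j+1) - 1)]
  have h3 : |T (s (j + 1) - 2) (j + 1) x| ≤ 2 ^ (j+1) * R ^ (s (j+1) - 1) :=
    h1.trans (mul_le_mul_of_nonneg_left hRp (by positivity))
  apply mul_le_mul _ h3 (abs_nonneg _) (by positivity)
  nlinarith

lemma g2_bound {R : ℝ} (hR : 1 ≤ R) (j : ℕ) {x : ℝ} (hx : x ≤ R) : ‖g2 (j+1) x‖ ≤ u R j := by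
  have hs := s_succ_ge j
  have hGpos : 0 < Real.Gamma (s (j+1)) := Real.Gamma_pos_of_pos (by linarith)
  unfold g2 u
  rw [Real.norm_eq_abs, abs_div, abs_of_pos hGpos, abs_mul]
  apply div_le_div_of_nonneg_right _ hGpos.le
  have h1 := T_bound (p := s (j+1) - 3) (by linarith) (j+1) hx (by linarith)
  have hRp : R ^ (s (j+1) - 3) ≤ R ^ (s (j+1) - 1) :=
    Real.rpow_le_rpow_of_exponent_le hR (by linarith)
  have h3 : |T (s (j + 1) - 3) (j + 1) x| ≤ 2 ^ (j+1) * R ^ (s (j+1) - 1) :=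
    h1.trans (mul_le_mul_of_nonneg_left hRp (by positivity))
  have h4 : 0 ≤ (s (j+1) - 1) * (s (j+1) - 2) := mul_nonneg (by linarith) (by linarith)
  rw [abs_of_nonneg h4]
  apply mul_le_mul _ h3 (abs_nonneg _) (by positivity)
  nlinarith

lemma g_hasDerivAt (j : ℕ) (x : ℝ) : HasDerivAt (g (j+1)) (g1 (j+1) x) x := by
  have hs := s_succ_ge j
  unfold g g1
  have h := (T_hasDerivAt (p := s (j+1) - 1) (by linarith) (j+1) x).div_const (Real.Gamma (s (j+1)))
  refine h.congr_deriv ?_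
  have : s (j+1) - 1 - 1 = s (j+1) - 2 := by ring
  rw [this]

lemma g1_hasDerivAt (j : ℕ) (x : ℝ) : HasDerivAt (g1 (j+1)) (g2 (j+1) x) x := by
  have hs := s_succ_ge j
  unfold g1 g2
  have h := ((T_hasDerivAt (p := s (j+1) - 2) (by linarith) (j+1) x).const_mul (s (j+1) - 1)).div_const
    (Real.Gamma (s (j+1)))
  refine h.congr_deriv ?_
  have : s (j+1) - 2 - 1 = s (j+1) - 3 := by ring
  rw [this]
  ring

lemma g2_continuous (j : ℕ) : Continuous (g2 (j+1)) := by
  have hs := s_succ_ge j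
  unfold g2
  exact (continuous_const.mul (T_continuous (by linarith) _)).div_const _

noncomputable def S0 (x : ℝ) : ℝ := ∑' j, g (j+1) x
noncomputable def S1 (x : ℝ) : ℝ := ∑' j, g1 (j+1) x
noncomputable def S2 (x : ℝ) : ℝ := ∑' j, g2 (j+1) x

lemma S0_hasDerivAt (x : ℝ) : HasDerivAt S0 (S1 x) x := by
  have hR : (1:ℝ) ≤ |x| + 1 := by linarith [abs_nonneg x]
  have hx : x ∈ Iio (|x| + 1) := by
    have := le_abs_self x
    simp only [mem_Iio]; linarith
  refine hasDerivAt_tsum_of_isPreconnected (u_summable hR) isOpen_Iio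
    (convex_Iio _).isPreconnected (fun n y _ => g_hasDerivAt n y)
    (fun n y hy => g1_bound hR n (le_of_lt hy)) hx ?_ hx
  exact Summable.of_norm_bounded (u_summable hR) (fun n => g_bound hR n (le_of_lt hx))

lemma S1_hasDerivAt (x : ℝ) : HasDerivAt S1 (S2 x) x := by
  have hR : (1:ℝ) ≤ |x| + 1 := by linarith [abs_nonneg x]
  have hx : x ∈ Iio (|x| + 1) := by
    have := le_abs_self x
    simp only [mem_Iio]; linarith
  refine hasDerivAt_tsum_of_isPreconnected (u_summable hR) isOpen_Iio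
    (convex_Iio _).isPreconnected (fun n y _ => g1_hasDerivAt n y)
    (fun n y hy => g2_bound hR n (le_of_lt hy)) hx ?_ hx
  exact Summable.of_norm_bounded (u_summable hR) (fun n => g1_bound hR n (le_of_lt hx))

lemma S2_continuous : Continuous S2 := by
  rw [continuous_iff_continuousAt]
  intro x
  have hR : (1:ℝ) ≤ |x| + 1 := by linarith [abs_nonneg x]
  have hx : x ∈ Iio (|x| + 1) := by
    have := le_abs_self x
    simp only [mem_Iio]; linarith
  have h : ContinuousOn S2 (Iio (|x| + 1)) :=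
    continuousOn_tsum (fun n => (g2_continuous n).continuousOn) (u_summable hR)
      (fun n y hy => g2_bound hR n (le_of_lt hy))
  exact h.continuousAt (isOpen_Iio.mem_nhds hx)

lemma S0_contDiff : ContDiff ℝ 2 S0 := by
  have hd0 : deriv S0 = S1 := funext fun x => (S0_hasDerivAt x).deriv
  have hd1 : deriv S1 = S2 := funext fun x => (S1_hasDerivAt x).deriv
  have h1 : ContDiff ℝ 1 S1 := by
    rw [contDiff_one_iff_deriv]
    refine ⟨fun x => (S1_hasDerivAt x).differentiableAt, ?_⟩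
    rw [hd1]; exact S2_continuous
  have : (2 : WithTop ℕ∞) = 1 + 1 := by norm_num
  rw [this, contDiff_succ_iff_deriv]
  refine ⟨fun x => (S0_hasDerivAt x).differentiableAt, by simp, ?_⟩
  rw [hd0]; exact h1

lemma g_summable (x : ℝ) : Summable (fun j => g j x) := by
  have hR : (1:ℝ) ≤ |x| + 1 := by linarith [abs_nonneg x]
  have hx : x ≤ (|x| + 1) := by
    have := le_abs_self x
    linarith
  rw [← summable_nat_add_iff 1]
  exact Summable.of_norm_bounded (u_summable hR) (fun n => g_bound hR n hx)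

/-- the scale function -/
noncomputable def W (x : ℝ) : ℝ := ∑' j, g j x

lemma W_eq (x : ℝ) : W x = g 0 x + S0 x := by
  unfold W S0
  exact (g_summable x).tsum_eq_zero_add

lemma g_zero_eq {x : ℝ} (hx : 0 ≤ x) : g 0 x = x ^ (3/4 : ℝ) / Real.Gamma (7/4) := by
  unfold g T s
  simp only [zero_add, Finset.range_one, Finset.sum_singleton, pow_zero, Nat.choose_self,
    Nat.cast_one, one_mul, Nat.cast_zero, sub_zero, mul_one]
  rw [hp_of_nonneg hx]
  norm_num

lemma W_contDiffOn : ContDiffOn ℝ 2 W (Ioi 0) := by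
  have h1 : ContDiffOn ℝ 2 (fun x : ℝ => x ^ (3/4 : ℝ) / Real.Gamma (7/4) + S0 x) (Ioi 0) := by
    apply ContDiffOn.add
    · apply ContDiffOn.div_const
      intro x hx
      exact (Real.contDiffAt_rpow_const_of_ne (ne_of_gt hx)).contDiffWithinAt
    · exact S0_contDiff.contDiffOn
  refine h1.congr ?_
  intro x hx
  rw [W_eq, g_zero_eq (le_of_lt hx)]

/-! ### Laplace transform -/

lemma lap_hp_integrable {p β : ℝ} (hp0 : 0 < p) (hβ : 0 < β) (n : ℕ) :
    Integrable (fun x : ℝ => Real.exp (-β * x) * hp p (x - n)) := by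
  have h0 : IntegrableOn (fun x : ℝ => Real.exp (-β * x) * hp p x) (Ioi 0) := by
    have h := (integrableOn_rpow_mul_exp_neg_mul_rpow (p := 1) (s := p) (b := β) (by linarith)
      one_pos hβ)
    refine h.congr_fun ?_ measurableSet_Ioi
    intro x hx
    simp only [Real.rpow_one]
    rw [hp_of_nonneg (le_of_lt hx)]; ring
  have h1 : Integrable (fun x : ℝ => Real.exp (-β * x) * hp p x) := by
    rw [← integrableOn_iff_integrable_of_support_subset (s := Ioi 0)]
    · exact h0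
    · intro x hx
      by_contra hx'
      apply hx
      simp only
      rw [hp_of_nonpos hp0.ne' (not_lt.mp hx'), mul_zero]
  have h2 := (h1.comp_sub_right (n:ℝ)).const_mul (Real.exp (-β * n))
  refine h2.congr (Eventually.of_forall ?_)
  intro x
  simp only
  rw [← mul_assoc, ← Real.exp_add]
  congr 2; ring

lemma lap_hp {p β : ℝ} (hp0 : 0 < p) (hβ : 0 < β) (n : ℕ) :
    ∫ x : ℝ, Real.exp (-β * x) * hp p (x - n) =
      Real.exp (-β) ^ n * ((1 / β) ^ (p + 1) * Real.Gamma (p + 1)) := by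
  have h1 : ∫ x : ℝ, Real.exp (-β * x) * hp p (x - n) =
      ∫ x : ℝ, Real.exp (-β * n) * (Real.exp (-β * (x - n)) * hp p (x - n)) := by
    congr 1
    ext x
    rw [← mul_assoc, ← Real.exp_add]
    congr 2; ring
  rw [h1, integral_const_mul,
    integral_sub_right_eq_self (fun x : ℝ => Real.exp (-β * x) * hp p x) (n:ℝ)]
  have h2 : ∫ x : ℝ, Real.exp (-β * x) * hp p x = ∫ x in Ioi 0, Real.exp (-β * x) * hp p x := by
    rw [setIntegral_eq_integral_of_forall_compl_eq_zero]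
    intro x hx
    rw [hp_of_nonpos hp0.ne' (not_lt.mp hx), mul_zero]
  have h3 : ∫ x in Ioi (0:ℝ), Real.exp (-β * x) * hp p x =
      ∫ x in Ioi (0:ℝ), x ^ ((p + 1) - 1) * Real.exp (-(β * x)) := by
    apply setIntegral_congr_fun measurableSet_Ioi
    intro x hx
    simp only
    rw [hp_of_nonneg (le_of_lt hx)]
    rw [mul_comm]; congr 2 <;> ring
  rw [h2, h3, Real.integral_rpow_mul_exp_neg_mul_Ioi (by linarith) hβ]
  congr 1
  rw [← Real.exp_nat_mul]; congr 1; ring

lemma s_pos_gt (j : ℕ) : 1 < s j := by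
  unfold s
  have : (0:ℝ) ≤ j := Nat.cast_nonneg _
  linarith

lemma lap_T_integrable {β : ℝ} (hβ : 0 < β) {p : ℝ} (hp0 : 0 < p) (j : ℕ) :
    Integrable (fun x : ℝ => Real.exp (-β * x) * T p j x) := by
  unfold T
  have : (fun x : ℝ => Real.exp (-β * x) *
      ∑ n ∈ Finset.range (j + 1), (-1 : ℝ) ^ n * (j.choose n) * hp p (x - n)) =
      fun x : ℝ => ∑ n ∈ Finset.range (j + 1),
        ((-1 : ℝ) ^ n * (j.choose n)) * (Real.exp (-β * x) * hp p (x - n)) := by
    ext x
    rw [Finset.mul_sum]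
    apply Finset.sum_congr rfl
    intro n _; ring
  rw [this]
  exact integrable_finsetSum _ (fun n _ => (lap_hp_integrable hp0 hβ n).const_mul _)

lemma lap_T {β : ℝ} (hβ : 0 < β) {p : ℝ} (hp0 : 0 < p) (j : ℕ) :
    ∫ x : ℝ, Real.exp (-β * x) * T p j x =
      (1 - Real.exp (-β)) ^ j * ((1 / β) ^ (p + 1) * Real.Gamma (p + 1)) := by
  unfold T
  have : (fun x : ℝ => Real.exp (-β * x) *
      ∑ n ∈ Finset.range (j + 1), (-1 : ℝ) ^ n * (j.choose n) * hp p (x - n)) =
      fun x : ℝ => ∑ n ∈ Finset.range (j + 1),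
        ((-1 : ℝ) ^ n * (j.choose n)) * (Real.exp (-β * x) * hp p (x - n)) := by
    ext x
    rw [Finset.mul_sum]
    apply Finset.sum_congr rfl
    intro n _; ring
  rw [this, integral_finsetSum _ (fun n _ => (lap_hp_integrable hp0 hβ n).const_mul _)]
  have h2 : ∀ n ∈ Finset.range (j+1), ∫ x : ℝ, ((-1 : ℝ) ^ n * (j.choose n)) *
      (Real.exp (-β * x) * hp p (x - n)) =
      ((-Real.exp (-β)) ^ n * 1 ^ (j - n) * (j.choose n)) *
        ((1 / β) ^ (p + 1) * Real.Gamma (p + 1)) := by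
    intro n _
    rw [integral_const_mul, lap_hp hp0 hβ n, neg_pow (Real.exp (-β)) n]
    ring
  rw [Finset.sum_congr rfl h2, ← Finset.sum_mul, ← add_pow]
  congr 2; ring

lemma lap_T_norm {β : ℝ} (hβ : 0 < β) {p : ℝ} (hp0 : 0 < p) (j : ℕ) :
    ∫ x : ℝ, ‖Real.exp (-β * x) * T p j x‖ ≤
      2 ^ j * ((1 / β) ^ (p + 1) * Real.Gamma (p + 1)) := by
  have hG : 0 < Real.Gamma (p + 1) := Real.Gamma_pos_of_pos (by linarith)
  have hb : 0 < (1 / β) ^ (p + 1) := Real.rpow_pos_of_pos (by positivity) _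
  have h1 : ∫ x : ℝ, ‖Real.exp (-β * x) * T p j x‖ ≤
      ∫ x : ℝ, ∑ n ∈ Finset.range (j + 1),
        ((j.choose n : ℕ) : ℝ) * (Real.exp (-β * x) * hp p (x - n)) := by
    apply integral_mono (lap_T_integrable hβ hp0 j).norm
    · exact integrable_finsetSum _ (fun n _ => (lap_hp_integrable hp0 hβ n).const_mul _)
    · intro x
      simp only
      unfold T
      rw [Finset.mul_sum]
      refine (norm_sum_le _ _).trans ?_
      apply Finset.sum_le_sum
      intro n _
      rw [norm_mul, norm_mul, norm_mul, norm_pow, norm_neg, norm_one, one_pow, one_mul,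
        Real.norm_eq_abs, Real.norm_eq_abs, Real.norm_eq_abs, Nat.abs_cast,
        abs_of_nonneg (hp_nonneg _ _), abs_of_pos (Real.exp_pos _)]
      apply le_of_eq; ring
  refine h1.trans ?_
  rw [integral_finsetSum _ (fun n _ => (lap_hp_integrable hp0 hβ n).const_mul _)]
  have h2 : ∀ n ∈ Finset.range (j+1), ∫ x : ℝ, ((j.choose n : ℕ) : ℝ) *
      (Real.exp (-β * x) * hp p (x - n)) ≤
      ((j.choose n : ℕ) : ℝ) * ((1 / β) ^ (p + 1) * Real.Gamma (p + 1)) := by
    intro n _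
    rw [integral_const_mul, lap_hp hp0 hβ n]
    apply mul_le_mul_of_nonneg_left _ (Nat.cast_nonneg _)
    have h3 : Real.exp (-β) ^ n ≤ 1 := by
      apply pow_le_one₀ (Real.exp_nonneg _)
      rw [Real.exp_le_one_iff]; linarith
    have h4 : 0 < (1 / β) ^ (p + 1) * Real.Gamma (p + 1) := by positivity
    nlinarith
  refine (Finset.sum_le_sum h2).trans ?_
  rw [← Finset.sum_mul, sum_choose_real]

lemma g_of_nonpos (j : ℕ) {x : ℝ} (hx : x ≤ 0) : g j x = 0 := by
  unfold g T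
  have : ∑ n ∈ Finset.range (j + 1), (-1 : ℝ) ^ n * (j.choose n) * hp (s j - 1) (x - n) = 0 := by
    apply Finset.sum_eq_zero
    intro n _
    have h := s_pos_gt j
    have hn : (0:ℝ) ≤ n := Nat.cast_nonneg _
    rw [hp_of_nonpos (by linarith) (by linarith), mul_zero]
  rw [this, zero_div]

lemma W_of_nonpos {x : ℝ} (hx : x ≤ 0) : W x = 0 := by
  unfold W
  simp [g_of_nonpos _ hx]

lemma two_lt_rpow {β : ℝ} (hβ : 2 < β) : 2 < β ^ (7/4 : ℝ) := by
  have h1 : (2:ℝ) ^ (1:ℝ) < 2 ^ (7/4:ℝ) := Real.rpow_lt_rpow_of_exponent_lt (by norm_num) (by norm_num)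
  have h2 : (2:ℝ) ^ (7/4:ℝ) < β ^ (7/4:ℝ) := Real.rpow_lt_rpow (by norm_num) hβ (by norm_num)
  rw [Real.rpow_one] at h1
  linarith

lemma inv_rpow_s {β : ℝ} (hβ : 0 < β) (j : ℕ) :
    (1 / β) ^ (s j) = ((β ^ (7/4:ℝ))⁻¹) ^ (j + 1) := by
  rw [one_div, ← Real.inv_rpow hβ.le, ← Real.rpow_natCast, ← Real.rpow_mul (by positivity)]
  unfold s; push_cast; rfl

lemma W_laplace {β : ℝ} (hβ : 2 < β) :
    HasSum (fun j : ℕ => (1 - Real.exp (-β)) ^ j * ((β ^ (7/4:ℝ))⁻¹) ^ (j + 1))
      (∫ x : ℝ, Real.exp (-β * x) * W x) := by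
  have hβ0 : 0 < β := by linarith
  have hs0 : ∀ j, 0 < s j - 1 := fun j => by linarith [s_pos_gt j]
  have hG : ∀ j, 0 < Real.Gamma (s j) := fun j => Real.Gamma_pos_of_pos (by linarith [s_pos_gt j])
  have hF_eq : ∀ j, (fun x : ℝ => Real.exp (-β * x) * g j x) =
      fun x => (Real.exp (-β * x) * T (s j - 1) j x) * (Real.Gamma (s j))⁻¹ := by
    intro j; ext x; unfold g; rw [div_eq_mul_inv]; ring
  have hF_int : ∀ j, Integrable (fun x : ℝ => Real.exp (-β * x) * g j x) := by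
    intro j
    rw [hF_eq]
    exact (lap_T_integrable hβ0 (hs0 j) j).mul_const _
  have hint : ∀ j, ∫ x : ℝ, Real.exp (-β * x) * g j x =
      (1 - Real.exp (-β)) ^ j * ((β ^ (7/4:ℝ))⁻¹) ^ (j + 1) := by
    intro j
    have h := lap_T hβ0 (hs0 j) j
    rw [sub_add_cancel] at h
    rw [hF_eq, integral_mul_const, h, inv_rpow_s hβ0]
    have := (hG j).ne'
    field_simp
  have hnorm : ∀ j, ∫ x : ℝ, ‖Real.exp (-β * x) * g j x‖ ≤
      (β ^ (7/4:ℝ))⁻¹ * (2 * (β ^ (7/4:ℝ))⁻¹) ^ j := by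
    intro j
    have h := lap_T_norm hβ0 (hs0 j) j
    rw [sub_add_cancel] at h
    have h1 : (fun x : ℝ => ‖Real.exp (-β * x) * g j x‖) =
      fun x => ‖Real.exp (-β * x) * T (s j - 1) j x‖ * (Real.Gamma (s j))⁻¹ := by
      ext x
      have := congrFun (hF_eq j) x
      rw [this, norm_mul, Real.norm_of_nonneg (inv_nonneg.mpr (hG j).le)]
    rw [h1, integral_mul_const]
    have h2 := mul_le_mul_of_nonneg_right h (inv_nonneg.mpr (hG j).le)
    refine h2.trans (le_of_eq ?_)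
    rw [inv_rpow_s hβ0]
    have h5 := mul_inv_cancel₀ (hG j).ne'
    calc 2 ^ j * (((β ^ (7/4:ℝ))⁻¹) ^ (j + 1) * Real.Gamma (s j)) * (Real.Gamma (s j))⁻¹
        = 2 ^ j * ((β ^ (7/4:ℝ))⁻¹) ^ (j + 1) * (Real.Gamma (s j) * (Real.Gamma (s j))⁻¹) := by ring
      _ = (β ^ (7/4:ℝ))⁻¹ * (2 * (β ^ (7/4:ℝ))⁻¹) ^ j := by rw [h5, mul_pow]; ring
  have hgt := two_lt_rpow hβ
  have hsum : Summable (fun j => ∫ x : ℝ, ‖Real.exp (-β * x) * g j x‖) := by
    refine Summable.of_nonneg_of_le (fun j => integral_nonneg (fun x => norm_nonneg _)) hnorm ?_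
    apply Summable.mul_left
    apply summable_geometric_of_lt_one
    · positivity
    · rw [← div_eq_mul_inv, div_lt_one (by linarith)]; exact hgt
  have h := hasSum_integral_of_summable_integral_norm hF_int hsum
  simp_rw [hint] at h
  have h6 : (fun x : ℝ => Real.exp (-β * x) * W x) =
      fun x => ∑' j, Real.exp (-β * x) * g j x := by
    funext x
    unfold W
    rw [tsum_mul_left]
  rw [h6]
  exact h

lemma W_laplace_val {β : ℝ} (hβ : 2 < β) :
    ∫ x in Ioi (0:ℝ), Real.exp (-β * x) * W x = 1 / (β ^ (7/4:ℝ) + (Real.exp (-β) - 1)) := by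
  have hgt := two_lt_rpow hβ
  have h1 : ∫ x in Ioi (0:ℝ), Real.exp (-β * x) * W x = ∫ x : ℝ, Real.exp (-β * x) * W x := by
    rw [setIntegral_eq_integral_of_forall_compl_eq_zero]
    intro x hx
    rw [W_of_nonpos (not_lt.mp hx), mul_zero]
  rw [h1]
  have h2 := W_laplace hβ
  have hr : ‖(1 - Real.exp (-β)) * (β ^ (7/4:ℝ))⁻¹‖ < 1 := by
    have he := Real.exp_pos (-β)
    have he1 : Real.exp (-β) < 1 := by rw [Real.exp_lt_one_iff]; linarith
    rw [norm_mul, Real.norm_of_nonneg (by linarith), norm_inv, Real.norm_of_nonneg (by linarith),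
      ← div_eq_mul_inv, div_lt_one (by linarith)]
    linarith
  have h3 := (hasSum_geometric_of_norm_lt_one hr).mul_left ((β ^ (7/4:ℝ))⁻¹)
  have h4 : (fun j : ℕ => (1 - Real.exp (-β)) ^ j * ((β ^ (7/4:ℝ))⁻¹) ^ (j + 1)) =
      fun j : ℕ => (β ^ (7/4:ℝ))⁻¹ * ((1 - Real.exp (-β)) * (β ^ (7/4:ℝ))⁻¹) ^ j := by
    ext j; rw [mul_pow]; ring
  rw [h4] at h2
  rw [h2.unique h3]
  have he := Real.exp_pos (-β)
  have hne : β ^ (7/4:ℝ) + (Real.exp (-β) - 1) ≠ 0 := by linarith
  have hne2 : β ^ (7/4:ℝ) ≠ 0 := by linarith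
  rw [← mul_inv, one_div]
  congr 1
  rw [mul_sub, mul_one, mul_comm (1 - Real.exp (-β)), ← mul_assoc, mul_inv_cancel₀ hne2]
  ring

lemma W_laplace_int {β : ℝ} (hβ : 2 < β) :
    IntegrableOn (fun x => Real.exp (-β * x) * W x) (Ioi 0) := by
  by_contra h
  have h1 := integral_undef h
  rw [W_laplace_val hβ] at h1
  have hgt := two_lt_rpow hβ
  have he := Real.exp_pos (-β)
  have : 0 < 1 / (β ^ (7/4:ℝ) + (Real.exp (-β) - 1)) := by
    apply one_div_pos.mpr; linarith
  linarith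

/-! ### The Levy measure -/

/-- compensated exponential against the stable density -/
noncomputable def G (x : ℝ) : ℝ := (Real.exp (-x) - 1 + x) * x ^ (-(11/4) : ℝ)

/-- dominating function -/
noncomputable def md (x : ℝ) : ℝ := min (x ^ 2) x * x ^ (-(11/4) : ℝ)

lemma md_integrable : IntegrableOn md (Ioi 0) := by
  have h1 : IntegrableOn md (Ioc 0 1) := by
    have h := (intervalIntegrable_iff_integrableOn_Ioc_of_le (μ := volume) (zero_le_one' ℝ)).mp
      (intervalIntegral.intervalIntegrable_rpow' (a := 0) (b := 1) (r := -(3/4)) (by norm_num))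
    refine h.congr_fun ?_ measurableSet_Ioc
    intro x hx
    unfold md
    simp only
    rw [min_eq_left (by nlinarith [hx.1, hx.2]), ← Real.rpow_natCast, ← Real.rpow_add hx.1]
    norm_num
  have h2 : IntegrableOn md (Ioi 1) := by
    have h := integrableOn_Ioi_rpow_of_lt (a := -(7/4)) (c := 1) (by norm_num) one_pos
    refine h.congr_fun ?_ measurableSet_Ioi
    intro x hx
    have hx1 : (1:ℝ) < x := hx
    unfold md
    simp only
    rw [min_eq_right (by nlinarith)]
    nth_rewrite 2 [← Real.rpow_one x]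
    rw [← Real.rpow_add (by linarith)]
    norm_num
  have h3 := h1.union h2
  rwa [Ioc_union_Ioi_eq_Ioi (zero_le_one' ℝ)] at h3

lemma md_nonneg {x : ℝ} (hx : 0 < x) : 0 ≤ md x := by
  unfold md
  have := Real.rpow_pos_of_pos hx (-(11/4))
  have h2 : 0 ≤ min (x^2) x := le_min (by positivity) hx.le
  positivity

lemma exp_comp_bound {x : ℝ} (hx : 0 < x) : Real.exp (-x) - 1 + x ≤ min (x ^ 2) x := by
  have h1 : Real.exp (-x) ≤ 1 / (1 + x) := by
    rw [Real.exp_neg, one_div]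
    apply inv_anti₀ (by linarith)
    linarith [Real.add_one_le_exp x]
  have h2 : 1 / (1 + x) - 1 + x = x ^ 2 / (1 + x) := by
    field_simp; ring
  apply le_min
  · have : x ^ 2 / (1 + x) ≤ x ^ 2 := div_le_self (by positivity) (by linarith)
    linarith
  · have : Real.exp (-x) ≤ 1 := by rw [Real.exp_le_one_iff]; linarith
    linarith

lemma exp_comp_pos {x : ℝ} (hx : 0 < x) : 0 < Real.exp (-x) - 1 + x := by
  have := Real.add_one_lt_exp (x := -x) (by linarith)
  linarith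

lemma G_pos {x : ℝ} (hx : 0 < x) : 0 < G x :=
  mul_pos (exp_comp_pos hx) (Real.rpow_pos_of_pos hx _)

lemma G_measurable : Measurable G := by
  unfold G
  fun_prop

lemma G_integrable : IntegrableOn G (Ioi 0) := by
  refine md_integrable.mono' G_measurable.aestronglyMeasurable ?_
  filter_upwards [ae_restrict_mem measurableSet_Ioi] with x hx
  have hx0 : 0 < x := hx
  rw [Real.norm_of_nonneg (G_pos hx0).le]
  exact mul_le_mul_of_nonneg_right (exp_comp_bound hx0) (Real.rpow_nonneg hx0.le _)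

noncomputable def K : ℝ := ∫ x in Ioi (0:ℝ), G x

lemma K_pos : 0 < K := by
  unfold K
  rw [setIntegral_pos_iff_support_of_nonneg_ae]
  · have : Function.support G ∩ Ioi 0 = Ioi 0 := by
      apply inter_eq_right.mpr
      intro x hx
      exact (G_pos hx).ne'
    rw [this]
    simp
  · filter_upwards [ae_restrict_mem measurableSet_Ioi] with x hx
    exact (G_pos hx).le
  · exact G_integrable

lemma G_scale {β : ℝ} (hβ : 0 < β) {x : ℝ} (hx : 0 < x) :
    (Real.exp (-(β * x)) - 1 + β * x) * x ^ (-(11/4) : ℝ) = β ^ (11/4 : ℝ) * G (β * x) := by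
  unfold G
  rw [Real.mul_rpow hβ.le hx.le, Real.rpow_neg hβ.le]
  have := (Real.rpow_pos_of_pos hβ (11/4)).ne'
  field_simp

lemma Gβ_integrable {β : ℝ} (hβ : 0 < β) :
    IntegrableOn (fun x : ℝ => (Real.exp (-(β * x)) - 1 + β * x) * x ^ (-(11/4) : ℝ)) (Ioi 0) := by
  have h1 : IntegrableOn (fun x => G (β * x)) (Ioi 0) := by
    rw [integrableOn_Ioi_comp_mul_left_iff G 0 hβ, mul_zero]
    exact G_integrable
  have h2 := h1.const_mul (β ^ (11/4 : ℝ))
  refine IntegrableOn.congr_fun h2 ?_ measurableSet_Ioi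
  intro x hx
  exact (G_scale hβ hx).symm

lemma Gβ_integral {β : ℝ} (hβ : 0 < β) :
    ∫ x in Ioi (0:ℝ), (Real.exp (-(β * x)) - 1 + β * x) * x ^ (-(11/4) : ℝ) =
      β ^ (7/4 : ℝ) * K := by
  have h1 : ∫ x in Ioi (0:ℝ), (Real.exp (-(β * x)) - 1 + β * x) * x ^ (-(11/4) : ℝ) =
      ∫ x in Ioi (0:ℝ), β ^ (11/4 : ℝ) * G (β * x) :=
    setIntegral_congr_fun measurableSet_Ioi (fun x hx => G_scale hβ hx)
  rw [h1, integral_const_mul, integral_comp_mul_left_Ioi G 0 hβ, mul_zero, smul_eq_mul]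
  unfold K
  rw [← mul_assoc]
  congr 1
  rw [← Real.rpow_neg_one, ← Real.rpow_add hβ]
  norm_num

/-- the density of the jump measure -/
noncomputable def rho (x : ℝ) : ℝ := K⁻¹ * x ^ (-(11/4) : ℝ)

lemma rho_measurable : Measurable rho := by
  unfold rho; fun_prop

lemma rho_nonneg {x : ℝ} (hx : 0 < x) : 0 ≤ rho x :=
  mul_nonneg (inv_nonneg.mpr K_pos.le) (Real.rpow_nonneg hx.le _)

noncomputable def mu0 : Measure ℝ :=
  (volume.restrict (Ioi (0:ℝ))).withDensity (fun x => ENNReal.ofReal (rho x))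

noncomputable def mu : Measure ℝ := mu0 + Measure.dirac 1

noncomputable def nu : Measure ℝ := mu.map (MeasurableEquiv.neg ℝ)

lemma mu0_integrable_iff {f : ℝ → ℝ} :
    Integrable f mu0 ↔ IntegrableOn (fun x => f x * rho x) (Ioi 0) := by
  unfold mu0
  rw [integrable_withDensity_iff rho_measurable.ennreal_ofReal
    (Eventually.of_forall fun x => ENNReal.ofReal_lt_top)]
  unfold IntegrableOn
  apply integrable_congr
  filter_upwards [ae_restrict_mem measurableSet_Ioi] with x hx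
  rw [ENNReal.toReal_ofReal (rho_nonneg hx)]

lemma mu0_integral {f : ℝ → ℝ} :
    ∫ x, f x ∂mu0 = ∫ x in Ioi (0:ℝ), f x * rho x := by
  unfold mu0
  rw [integral_withDensity_eq_integral_toReal_smul rho_measurable.ennreal_ofReal
    (Eventually.of_forall fun x => ENNReal.ofReal_lt_top)]
  apply setIntegral_congr_fun measurableSet_Ioi
  intro x hx
  simp only [smul_eq_mul]
  rw [ENNReal.toReal_ofReal (rho_nonneg hx), mul_comm]

lemma mu0_lintegral {f : ℝ → ENNReal} (hf : Measurable f) :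
    ∫⁻ x, f x ∂mu0 = ∫⁻ x in Ioi (0:ℝ), ENNReal.ofReal (rho x) * f x := by
  unfold mu0
  rw [lintegral_withDensity_eq_lintegral_mul _ rho_measurable.ennreal_ofReal hf]
  rfl

lemma nu_Ici : nu (Ici 0) = 0 := by
  unfold nu
  rw [MeasurableEquiv.map_apply]
  have : (MeasurableEquiv.neg ℝ) ⁻¹' (Ici (0:ℝ)) = Iic 0 := by
    ext x; simp
  rw [this]
  unfold mu mu0
  rw [Measure.add_apply, withDensity_apply _ measurableSet_Iic, Measure.restrict_restrict measurableSet_Iic]
  have h : Iic (0:ℝ) ∩ Ioi 0 = ∅ := by ext x; simp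
  rw [h]
  simp

lemma nu_min : (∫⁻ x, ENNReal.ofReal (min 1 (x ^ 2)) ∂nu) < ⊤ := by
  unfold nu
  rw [lintegral_map_equiv]
  simp only [MeasurableEquiv.neg_apply, neg_sq]
  unfold mu
  rw [lintegral_add_measure]
  apply ENNReal.add_lt_top.mpr
  constructor
  · rw [mu0_lintegral (by fun_prop)]
    have h1 : IntegrableOn (fun x => K⁻¹ * md x) (Ioi 0) := md_integrable.const_mul _
    have h2 : (∫⁻ x in Ioi (0:ℝ), ENNReal.ofReal (K⁻¹ * md x)) < ⊤ := by
      have := h1.lintegral_lt_top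
      exact this
    refine lt_of_le_of_lt ?_ h2
    apply setLIntegral_mono' measurableSet_Ioi
    intro x hx
    have hx0 : (0:ℝ) < x := hx
    rw [← ENNReal.ofReal_mul (rho_nonneg hx0)]
    apply ENNReal.ofReal_le_ofReal
    unfold rho md
    have h3 := Real.rpow_pos_of_pos hx0 (-(11/4))
    have h4 := inv_pos.mpr K_pos
    have h5 : min 1 (x^2) ≤ min (x^2) x := by
      rcases le_total x 1 with h | h
      · apply le_min (min_le_right _ _)
        exact (min_le_right _ _).trans (by nlinarith)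
      · apply le_min (min_le_right _ _)
        exact (min_le_left _ _).trans h
    calc K⁻¹ * x ^ (-(11/4) : ℝ) * min 1 (x^2) ≤ K⁻¹ * x ^ (-(11/4) : ℝ) * min (x^2) x :=
          mul_le_mul_of_nonneg_left h5 (by positivity)
      _ = K⁻¹ * (min (x^2) x * x ^ (-(11/4) : ℝ)) := by ring
  · rw [lintegral_dirac]
    exact ENNReal.ofReal_lt_top

lemma nu_unbounded_variation : (∫⁻ x in Ioo (-1 : ℝ) 0, ENNReal.ofReal |x| ∂nu) = ⊤ := by
  unfold nu
  rw [MeasurableEquiv.restrict_map, lintegral_map_equiv]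
  have : (MeasurableEquiv.neg ℝ) ⁻¹' (Ioo (-1:ℝ) 0) = Ioo 0 1 := by
    ext x; simp
  rw [this]
  simp only [MeasurableEquiv.neg_apply, abs_neg]
  unfold mu
  rw [Measure.restrict_add, lintegral_add_measure]
  apply ENNReal.add_eq_top.mpr
  left
  unfold mu0
  rw [restrict_withDensity measurableSet_Ioo, lintegral_withDensity_eq_lintegral_mul _
    rho_measurable.ennreal_ofReal (by fun_prop), Measure.restrict_restrict measurableSet_Ioo]
  have h : Ioo (0:ℝ) 1 ∩ Ioi 0 = Ioo 0 1 := by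
    apply inter_eq_left.mpr
    intro x hx
    exact hx.1
  rw [h]
  by_contra hne
  have hlt : (∫⁻ x in Ioo (0:ℝ) 1, ((fun x => ENNReal.ofReal (rho x)) * fun x => ENNReal.ofReal |x|) x) < ⊤ :=
    lt_top_iff_ne_top.mpr hne
  have h2 : IntegrableOn (fun x : ℝ => K⁻¹ * x ^ (-(7/4) : ℝ)) (Ioo 0 1) := by
    refine ⟨(by fun_prop), ?_⟩
    rw [hasFiniteIntegral_iff_ofReal]
    · refine lt_of_le_of_lt (le_of_eq ?_) hlt
      apply setLIntegral_congr_fun measurableSet_Ioo
      intro x hx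
      simp only [Pi.mul_apply]
      rw [← ENNReal.ofReal_mul (rho_nonneg hx.1), abs_of_pos hx.1]
      congr 1
      unfold rho
      rw [mul_assoc]
      nth_rewrite 3 [← Real.rpow_one x]
      rw [← Real.rpow_add hx.1]
      norm_num
    · filter_upwards [ae_restrict_mem measurableSet_Ioo] with x hx
      have h3 := Real.rpow_pos_of_pos hx.1 (-(7/4))
      have h4 := inv_pos.mpr K_pos
      simp only [Pi.zero_apply]
      positivity
  have h3 : IntegrableOn (fun x : ℝ => x ^ (-(7/4) : ℝ)) (Ioo 0 1) := by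
    have := h2.const_mul K
    refine IntegrableOn.congr_fun this ?_ measurableSet_Ioo
    intro x _
    simp only
    rw [← mul_assoc, mul_inv_cancel₀ K_pos.ne', one_mul]
  rw [intervalIntegral.integrableOn_Ioo_rpow_iff one_pos] at h3
  norm_num at h3

/-- drift -/
noncomputable def gam : ℝ := ∫ x in Ioi (0:ℝ), (if x < 1 then 0 else x) * rho x

lemma big_integrable : IntegrableOn (fun x : ℝ => (if x < 1 then 0 else x) * rho x) (Ioi 0) := by
  have h1 : IntegrableOn (fun x => K⁻¹ * md x) (Ioi 0) := md_integrable.const_mul _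
  refine h1.mono' ?_ ?_
  · apply Measurable.aestronglyMeasurable
    exact (Measurable.ite measurableSet_Iio measurable_const measurable_id).mul rho_measurable
  · filter_upwards [ae_restrict_mem measurableSet_Ioi] with x hx
    have hx0 : (0:ℝ) < x := hx
    have h3 := Real.rpow_pos_of_pos hx0 (-(11/4))
    have h4 := inv_pos.mpr K_pos
    have h0 : 0 ≤ (if x < 1 then 0 else x) := by split_ifs <;> linarith
    rw [Real.norm_of_nonneg (mul_nonneg h0 (rho_nonneg hx0))]
    unfold rho md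
    have h5 : (if x < 1 then 0 else x) ≤ min (x^2) x := by
      split_ifs with h
      · exact le_min (by positivity) hx0.le
      · exact le_min (by nlinarith) le_rfl
    calc (if x < 1 then 0 else x) * (K⁻¹ * x ^ (-(11/4) : ℝ)) ≤ min (x^2) x * (K⁻¹ * x ^ (-(11/4) : ℝ)) :=
          mul_le_mul_of_nonneg_right h5 (by positivity)
      _ = K⁻¹ * (min (x^2) x * x ^ (-(11/4) : ℝ)) := by ring

lemma psi_eq {β : ℝ} (hβ : 0 < β) :
    gam * β + ∫ x, (Real.exp (β * x) - 1 - (if -1 < x then β * x else 0)) ∂nu =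
      β ^ (7/4:ℝ) + (Real.exp (-β) - 1) := by
  have hmain : IntegrableOn (fun x : ℝ => ((Real.exp (-(β * x)) - 1 + β * x) * x ^ (-(11/4) : ℝ)) * K⁻¹) (Ioi 0) :=
    (Gβ_integrable hβ).mul_const _
  have hbig := big_integrable.const_mul β
  have hsplit : ∀ x ∈ Ioi (0:ℝ), (Real.exp (β * (-x)) - 1 - (if -1 < -x then β * (-x) else 0)) * rho x =
      ((Real.exp (-(β * x)) - 1 + β * x) * x ^ (-(11/4) : ℝ)) * K⁻¹ -
        β * ((if x < 1 then 0 else x) * rho x) := by
    intro x hx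
    unfold rho
    rw [mul_neg]
    by_cases h : x < 1
    · rw [if_pos (by linarith), if_pos h]; ring
    · rw [if_neg (by linarith), if_neg h]; ring
  have hint0 : Integrable (fun x : ℝ => Real.exp (β * (-x)) - 1 - (if -1 < -x then β * (-x) else 0)) mu0 := by
    rw [mu0_integrable_iff]
    exact IntegrableOn.congr_fun (hmain.sub hbig) (fun x hx => (hsplit x hx).symm) measurableSet_Ioi
  have hint1 : Integrable (fun x : ℝ => Real.exp (β * (-x)) - 1 - (if -1 < -x then β * (-x) else 0))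
      (Measure.dirac (1:ℝ)) := by
    apply integrable_dirac
    exact enorm_lt_top
  unfold nu
  rw [integral_map_equiv]
  simp only [MeasurableEquiv.neg_apply]
  unfold mu
  rw [integral_add_measure hint0 hint1, integral_dirac, mu0_integral,
    setIntegral_congr_fun measurableSet_Ioi hsplit, integral_sub hmain hbig, integral_mul_const,
    Gβ_integral hβ, integral_const_mul]
  unfold gam
  have := K_pos.ne'
  rw [mul_assoc (β ^ (7/4:ℝ)), mul_inv_cancel₀ this]
  norm_num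
  ring

lemma mu0_Ioi_lt_top {y : ℝ} (hy : 0 < y) : mu0 (Ioi y) < ⊤ := by
  unfold mu0
  rw [withDensity_apply _ measurableSet_Ioi, Measure.restrict_restrict measurableSet_Ioi]
  have h : Ioi y ∩ Ioi 0 = Ioi y := by
    apply inter_eq_left.mpr
    exact Ioi_subset_Ioi hy.le
  rw [h]
  have h1 := (integrableOn_Ioi_rpow_of_lt (a := -(11/4)) (c := y) (by norm_num) hy).const_mul K⁻¹
  exact h1.lintegral_lt_top

lemma tail_eq {y : ℝ} : nu (Iio (-y)) = mu0 (Ioi y) + (Measure.dirac 1) (Ioi y) := by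
  unfold nu
  rw [MeasurableEquiv.map_apply]
  have : (MeasurableEquiv.neg ℝ) ⁻¹' (Iio (-y)) = Ioi y := by
    ext x; simp
  rw [this]
  rfl

lemma tail_jump {y : ℝ} (hy : 0 < y) (hy1 : y < 1) :
    (nu (Iio (-1))).toReal + 1 ≤ (nu (Iio (-y))).toReal := by
  rw [tail_eq, tail_eq]
  rw [ENNReal.toReal_add (mu0_Ioi_lt_top one_pos).ne (measure_ne_top _ _),
    ENNReal.toReal_add (mu0_Ioi_lt_top hy).ne (measure_ne_top _ _)]
  have h1 : (mu0 (Ioi 1)).toReal ≤ (mu0 (Ioi y)).toReal :=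
    ENNReal.toReal_mono (mu0_Ioi_lt_top hy).ne (measure_mono (Ioi_subset_Ioi hy1.le))
  have h2 : (Measure.dirac (1:ℝ)) (Ioi (1:ℝ)) = 0 := by simp
  have h3 : (Measure.dirac (1:ℝ)) (Ioi y) = 1 := by simp [hy1]
  rw [h2, h3]
  simp only [ENNReal.toReal_zero, ENNReal.toReal_one]
  linarith

lemma tail_not_continuous : ¬ ContinuousOn (fun y => (nu (Iio (-y))).toReal) (Ioi 0) := by
  intro h
  have h1 : ContinuousAt (fun y => (nu (Iio (-y))).toReal) 1 := h.continuousAt (Ioi_mem_nhds one_pos)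
  rw [Metric.continuousAt_iff] at h1
  obtain ⟨δ, hδ, hh⟩ := h1 1 one_pos
  have hd : 0 < min δ 1 := lt_min hδ one_pos
  have hy0 : 0 < 1 - min δ 1 / 2 := by
    have := min_le_right δ 1
    linarith
  have hy1 : 1 - min δ 1 / 2 < 1 := by linarith
  have h2 := tail_jump hy0 hy1
  have h3 : dist (1 - min δ 1 / 2) 1 < δ := by
    rw [Real.dist_eq, abs_sub_lt_iff]
    have := min_le_left δ 1
    constructor <;> linarith
  have h4 := hh h3
  rw [Real.dist_eq, abs_lt] at h4
  linarith [h4.2]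

end Pool.Agent.Lib.MP_0b691a_pr
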