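import Mathlib
import Pool.Agent.Lib.MP_0b691a_pr.Basic

set_option autoImplicit false
open MeasureTheory Set Filter Topology

namespace Pool.Agent.Lib.MP_0b691a_pr

/-! ### Positivity and monotonicity of the scale function -/

lemma T_succ (p : ℝ) (j : ℕ) (x : ℝ) : T p (j + 1) x = T p j x - T p j (x - 1) := by
  have hA : T p (j + 1) x = ∑ n ∈ Finset.range (j + 2),
      ((-1 : ℝ) ^ n * (j.choose n) * hp p (x - n)) +
      ∑ n ∈ Finset.range (j + 2), (if n = 0 then 0 else
        (-1 : ℝ) ^ n * (j.choose (n - 1)) * hp p (x - n)) := by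
    unfold T
    rw [← Finset.sum_add_distrib]
    apply Finset.sum_congr rfl
    intro n _
    rcases n with _ | n
    · simp
    · simp only [Nat.succ_ne_zero, if_false, Nat.add_sub_cancel]
      rw [Nat.choose_succ_succ]
      push_cast
      ring
  rw [hA, sub_eq_add_neg]
  congr 1
  · unfold T
    rw [Finset.sum_range_succ, Nat.choose_succ_self]
    simp
  · rw [Finset.sum_range_succ']
    simp only [Nat.succ_ne_zero, if_false, if_true, add_zero, Nat.add_sub_cancel]
    unfold T
    rw [← Finset.sum_neg_distrib]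
    apply Finset.sum_congr rfl
    intro n _
    have : x - ((n + 1 : ℕ) : ℝ) = x - 1 - n := by push_cast; ring
    rw [this, pow_succ]
    ring

lemma T_nonneg (j : ℕ) : ∀ {p : ℝ}, (j : ℝ) < p → ∀ x, 0 ≤ T p j x := by
  induction j with
  | zero =>
    intro p _ x
    unfold T
    simp [hp_nonneg]
  | succ j ih =>
    intro p hpj x
    push_cast at hpj
    have hj : (0 : ℝ) ≤ j := Nat.cast_nonneg _
    have hmono : Monotone (T p j) := by
      apply monotone_of_deriv_nonneg
      · intro y; exact (T_hasDerivAt (by linarith) j y).differentiableAt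
      · intro y
        rw [(T_hasDerivAt (by linarith) j y).deriv]
        exact mul_nonneg (by linarith) (ih (by linarith) y)
    rw [T_succ]
    have := hmono (show x - 1 ≤ x by linarith)
    linarith

lemma T_mono {j : ℕ} {p : ℝ} (h : (j : ℝ) + 1 < p) : Monotone (T p j) := by
  have hj : (0 : ℝ) ≤ j := Nat.cast_nonneg _
  apply monotone_of_deriv_nonneg
  · intro y; exact (T_hasDerivAt (by linarith) j y).differentiableAt
  · intro y
    rw [(T_hasDerivAt (by linarith) j y).deriv]
    exact mul_nonneg (by linarith) (T_nonneg j (by linarith) y)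

lemma g_nonneg (j : ℕ) (x : ℝ) : 0 ≤ g j x := by
  unfold g
  refine div_nonneg (T_nonneg j ?_ x) (Real.Gamma_pos_of_pos (by linarith [s_pos_gt j])).le
  unfold s
  have hj : (0 : ℝ) ≤ j := Nat.cast_nonneg _
  linarith

lemma g_mono (j : ℕ) : Monotone (g (j + 1)) := by
  intro x y hxy
  unfold g
  apply div_le_div_of_nonneg_right _ (Real.Gamma_pos_of_pos (by linarith [s_pos_gt (j + 1)])).le
  apply T_mono _ hxy
  unfold s
  have hj : (0 : ℝ) ≤ j := Nat.cast_nonneg _
  push_cast
  linarith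

lemma W_nonneg (x : ℝ) : 0 ≤ W x := tsum_nonneg fun j => g_nonneg j x

lemma S0_mono : Monotone S0 := by
  intro x y hxy
  unfold S0
  exact ((summable_nat_add_iff 1).mpr (g_summable x)).tsum_le_tsum (fun j => g_mono j hxy)
    ((summable_nat_add_iff 1).mpr (g_summable y))

lemma W_strictMonoOn : StrictMonoOn W (Ici 0) := by
  intro x hx y hy hxy
  have hx0 : (0 : ℝ) ≤ x := hx
  rw [W_eq, W_eq, g_zero_eq hx0, g_zero_eq (hx0.trans hxy.le)]
  have h1 := S0_mono hxy.le
  have h2 : x ^ (3/4 : ℝ) < y ^ (3/4 : ℝ) := Real.rpow_lt_rpow hx0 hxy (by norm_num)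
  have h3 : (0 : ℝ) < Real.Gamma (7/4) := Real.Gamma_pos_of_pos (by norm_num)
  have h4 := div_lt_div_of_pos_right h2 h3
  linarith

lemma W_continuous : Continuous W := by
  have h1 : W = fun x => g 0 x + S0 x := funext W_eq
  rw [h1]
  refine Continuous.add ?_ S0_contDiff.continuous
  unfold g
  apply Continuous.div_const
  apply T_continuous
  unfold s
  norm_num

/-! ### The Laplace transform right of the largest root -/

/-- the value of the Laplace exponent -/
noncomputable def psi0 (β : ℝ) : ℝ := β ^ (7/4 : ℝ) + (Real.exp (-β) - 1)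

lemma W_laplace_full {β : ℝ} (hβ : 0 < β) (hpos : 0 < psi0 β) :
    IntegrableOn (fun x => Real.exp (-β * x) * W x) (Ioi 0) ∧
    ∫ x in Ioi (0:ℝ), Real.exp (-β * x) * W x = 1 / psi0 β := by
  have hs0 : ∀ j, 0 < s j - 1 := fun j => by linarith [s_pos_gt j]
  have hG : ∀ j, 0 < Real.Gamma (s j) := fun j => Real.Gamma_pos_of_pos (by linarith [s_pos_gt j])
  have hB : 0 < β ^ (7/4 : ℝ) := Real.rpow_pos_of_pos hβ _
  have he := Real.exp_pos (-β)
  have he1 : Real.exp (-β) < 1 := by rw [Real.exp_lt_one_iff]; linarith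
  have hF_eq : ∀ j, (fun x : ℝ => Real.exp (-β * x) * g j x) =
      fun x => (Real.exp (-β * x) * T (s j - 1) j x) * (Real.Gamma (s j))⁻¹ := by
    intro j; ext x; unfold g; rw [div_eq_mul_inv]; ring
  have hF_int : ∀ j, Integrable (fun x : ℝ => Real.exp (-β * x) * g j x) := by
    intro j
    rw [hF_eq]
    exact (lap_T_integrable hβ (hs0 j) j).mul_const _
  have hint : ∀ j, ∫ x : ℝ, Real.exp (-β * x) * g j x =
      (1 - Real.exp (-β)) ^ j * ((β ^ (7/4:ℝ))⁻¹) ^ (j + 1) := by
    intro j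
    have h := lap_T hβ (hs0 j) j
    rw [sub_add_cancel] at h
    rw [hF_eq, integral_mul_const, h, inv_rpow_s hβ]
    have := (hG j).ne'
    field_simp
  have hnorm : ∀ j, ∫ x : ℝ, ‖Real.exp (-β * x) * g j x‖ =
      (1 - Real.exp (-β)) ^ j * ((β ^ (7/4:ℝ))⁻¹) ^ (j + 1) := by
    intro j
    rw [← hint j]
    congr 1
    ext x
    exact Real.norm_of_nonneg (mul_nonneg (Real.exp_nonneg _) (g_nonneg j x))
  have hr0 : 0 ≤ (1 - Real.exp (-β)) * (β ^ (7/4:ℝ))⁻¹ :=
    mul_nonneg (by linarith) (inv_nonneg.mpr hB.le)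
  have hr1 : (1 - Real.exp (-β)) * (β ^ (7/4:ℝ))⁻¹ < 1 := by
    rw [← div_eq_mul_inv, div_lt_one hB]
    unfold psi0 at hpos
    linarith
  have hgeo : (fun j : ℕ => (1 - Real.exp (-β)) ^ j * ((β ^ (7/4:ℝ))⁻¹) ^ (j + 1)) =
      fun j : ℕ => (β ^ (7/4:ℝ))⁻¹ * ((1 - Real.exp (-β)) * (β ^ (7/4:ℝ))⁻¹) ^ j := by
    ext j; rw [mul_pow]; ring
  have hsumgeo := (hasSum_geometric_of_lt_one hr0 hr1).mul_left ((β ^ (7/4:ℝ))⁻¹)
  rw [← hgeo] at hsumgeo
  have hsum : Summable (fun j => ∫ x : ℝ, ‖Real.exp (-β * x) * g j x‖) := by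
    simp_rw [hnorm]
    exact hsumgeo.summable
  have h := hasSum_integral_of_summable_integral_norm hF_int hsum
  simp_rw [hint] at h
  have h6 : (fun x : ℝ => Real.exp (-β * x) * W x) =
      fun x => ∑' j, Real.exp (-β * x) * g j x := by
    funext x
    unfold W
    rw [tsum_mul_left]
  rw [← h6] at h
  have hval : ∫ x in Ioi (0:ℝ), Real.exp (-β * x) * W x = 1 / psi0 β := by
    have h1 : ∫ x in Ioi (0:ℝ), Real.exp (-β * x) * W x = ∫ x : ℝ, Real.exp (-β * x) * W x := by
      rw [setIntegral_eq_integral_of_forall_compl_eq_zero]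
      intro x hx
      rw [W_of_nonpos (not_lt.mp hx), mul_zero]
    rw [h1, h.unique hsumgeo]
    unfold psi0 at hpos ⊢
    rw [← mul_inv, one_div]
    congr 1
    rw [mul_sub, mul_one, mul_comm (1 - Real.exp (-β)), ← mul_assoc, mul_inv_cancel₀ hB.ne']
    ring
  refine ⟨?_, hval⟩
  by_contra hn
  rw [integral_undef hn] at hval
  have := one_div_pos.mpr hpos
  linarith

lemma psi0_zero : psi0 0 = 0 := by
  unfold psi0
  rw [Real.zero_rpow (by norm_num)]
  simp

lemma psi0_continuous : Continuous psi0 := by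
  unfold psi0
  exact (continuous_id.rpow_const (fun x => Or.inr (by norm_num))).add
    ((Real.continuous_exp.comp continuous_neg).sub continuous_const)

lemma psi0_one_pos : 0 < psi0 1 := by
  unfold psi0
  rw [Real.one_rpow]
  have := Real.exp_pos (-1)
  linarith

/-- positivity persists to the right: `(1 - e^{-β}) / β^{7/4}` is decreasing -/
lemma psi0_pos_of_le {β : ℝ} (hβ : 1 ≤ β) : 0 < psi0 β := by
  unfold psi0
  have h1 : (1 : ℝ) ≤ β ^ (7/4 : ℝ) := Real.one_le_rpow hβ (by norm_num)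
  have := Real.exp_pos (-β)
  linarith

/-- The Laplace exponent has a largest root on `[0, ∞)`, it is positive right of it. -/
lemma exists_phi : ∃ Φ : ℝ, IsGreatest {l : ℝ | 0 ≤ l ∧ psi0 l = 0} Φ ∧
    ∀ β, Φ < β → 0 < psi0 β := by
  have hne : ({l : ℝ | 0 ≤ l ∧ psi0 l = 0}).Nonempty := ⟨0, le_rfl, psi0_zero⟩
  have hbd : ∀ l ∈ {l : ℝ | 0 ≤ l ∧ psi0 l = 0}, l ≤ 1 := by
    intro l hl
    by_contra h
    have := psi0_pos_of_le (not_le.mp h).le
    rw [hl.2] at this
    exact lt_irrefl _ this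
  have hclosed : IsClosed {l : ℝ | 0 ≤ l ∧ psi0 l = 0} :=
    (isClosed_le continuous_const continuous_id).inter
      (isClosed_eq psi0_continuous continuous_const)
  have hcomp : IsCompact {l : ℝ | 0 ≤ l ∧ psi0 l = 0} := by
    apply isCompact_Icc.of_isClosed_subset hclosed
    intro l hl
    exact ⟨hl.1, hbd l hl⟩
  obtain ⟨Φ, hΦ⟩ := hcomp.exists_isGreatest hne
  refine ⟨Φ, hΦ, ?_⟩
  intro β hβ
  by_contra hcon
  have hΦ0 : 0 ≤ Φ := hΦ.1.1
  -- intermediate value theorem between β and a point where psi0 is positive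
  have hle : psi0 β ≤ 0 := not_lt.mp hcon
  have hmax : β ≤ max β 1 := le_max_left _ _
  have hpos : 0 < psi0 (max β 1) := psi0_pos_of_le (le_max_right _ _)
  have hiv := intermediate_value_Icc hmax psi0_continuous.continuousOn
  obtain ⟨c, hc, hc0⟩ := hiv ⟨hle, hpos.le⟩
  have := hΦ.2 ⟨by linarith [hc.1], hc0⟩
  linarith [hc.1]

/-! ### The Laplace exponent -/

lemma comp_integrable {β : ℝ} (hβ : 0 ≤ β) :
    Integrable (fun x => Real.exp (β * x) - 1 - (if -1 < x then β * x else 0)) nu := by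
  rcases hβ.eq_or_lt with h0 | h0
  · subst h0
    have : (fun x : ℝ => Real.exp (0 * x) - 1 - (if -1 < x then 0 * x else 0)) = fun _ => 0 := by
      ext x; simp
    rw [this]
    exact integrable_zero _ _ _
  have hmain : IntegrableOn (fun x : ℝ => ((Real.exp (-(β * x)) - 1 + β * x) * x ^ (-(11/4) : ℝ)) * K⁻¹) (Ioi 0) :=
    (Gβ_integrable h0).mul_const _
  have hbig := big_integrable.const_mul β
  have hsplit : ∀ x ∈ Ioi (0:ℝ), (Real.exp (β * (-x)) - 1 - (if -1 < -x then β * (-x) else 0)) * rho x =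
      ((Real.exp (-(β * x)) - 1 + β * x) * x ^ (-(11/4) : ℝ)) * K⁻¹ -
        β * ((if x < 1 then 0 else x) * rho x) := by
    intro x hx
    unfold rho
    rw [mul_neg]
    by_cases h : x < 1
    · rw [if_pos (by linarith), if_pos h]; ring
    · rw [if_neg (by linarith), if_neg h]; ring
  have hint0 : Integrable (fun x : ℝ => Real.exp (β * (-x)) - 1 - (if -1 < -x then β * (-x) else 0)) mu0 := by
    rw [mu0_integrable_iff]
    exact IntegrableOn.congr_fun (hmain.sub hbig) (fun x hx => (hsplit x hx).symm) measurableSet_Ioi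
  have hint1 : Integrable (fun x : ℝ => Real.exp (β * (-x)) - 1 - (if -1 < -x then β * (-x) else 0))
      (Measure.dirac (1:ℝ)) := by
    apply integrable_dirac
    exact enorm_lt_top
  have h2 := hint0.add_measure hint1
  unfold nu
  rw [integrable_map_equiv]
  exact h2

lemma psi_eq' {β : ℝ} (hβ : 0 ≤ β) :
    gam * β + ∫ x, (Real.exp (β * x) - 1 - (if -1 < x then β * x else 0)) ∂nu = psi0 β := by
  rcases hβ.eq_or_lt with h0 | h0
  · subst h0
    rw [psi0_zero]
    simp
  · exact psi_eq h0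

lemma tail_lt_top {y : ℝ} (hy : 0 < y) : nu (Iio (-y)) < ⊤ := by
  rw [tail_eq]
  exact ENNReal.add_lt_top.mpr ⟨mu0_Ioi_lt_top hy, measure_lt_top _ _⟩

end Pool.Agent.Lib.MP_0b691a_pr
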