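import Mathlib

set_option autoImplicit false
open MeasureTheory Set Filter Topology ProbabilityTheory

namespace Pool.Agent.Lib.MP_0b691a_pr

/-- A nonnegative function on the half line is determined by its Laplace transform. -/
lemma laplace_unique_ae {V W : ℝ → ℝ} {b : ℝ} (hV : ∀ x, 0 ≤ V x) (hW : ∀ x, 0 ≤ W x)
    (hVi : ∀ β, b < β → IntegrableOn (fun x => Real.exp (-β * x) * V x) (Ioi 0))
    (hWi : ∀ β, b < β → IntegrableOn (fun x => Real.exp (-β * x) * W x) (Ioi 0))
    (h : ∀ β, b < β → ∫ x in Ioi (0:ℝ), Real.exp (-β * x) * V x =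
      ∫ x in Ioi (0:ℝ), Real.exp (-β * x) * W x) :
    ∀ᵐ x ∂(volume.restrict (Ioi (0:ℝ))), V x = W x := by
  -- the two finite measures
  set c : ℝ := b + 1 with hc
  have hcb : b < c := by rw [hc]; linarith
  let M : (ℝ → ℝ) → Measure ℝ := fun F =>
    (volume.restrict (Ioi (0:ℝ))).withDensity (fun x => ENNReal.ofReal (Real.exp (-c * x) * F x))
  have haem : ∀ F : ℝ → ℝ, (∀ β, b < β → IntegrableOn (fun x => Real.exp (-β * x) * F x) (Ioi 0)) →
      AEMeasurable (fun x => ENNReal.ofReal (Real.exp (-c * x) * F x))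
        (volume.restrict (Ioi (0:ℝ))) := by
    intro F hF
    exact (hF c hcb).aestronglyMeasurable.aemeasurable.ennreal_ofReal
  have hfin : ∀ F : ℝ → ℝ, (∀ β, b < β → IntegrableOn (fun x => Real.exp (-β * x) * F x) (Ioi 0)) →
      IsFiniteMeasure (M F) := by
    intro F hF
    apply isFiniteMeasure_withDensity_ofReal
    exact (hF c hcb).hasFiniteIntegral
  have hintM : ∀ F : ℝ → ℝ, (∀ x, 0 ≤ F x) →
      (∀ β, b < β → IntegrableOn (fun x => Real.exp (-β * x) * F x) (Ioi 0)) →
      ∀ t, t < 1 → Integrable (fun x => Real.exp (t * x)) (M F) ∧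
        ∫ x, Real.exp (t * x) ∂(M F) = ∫ x in Ioi (0:ℝ), Real.exp (-(c - t) * x) * F x := by
    intro F hF0 hF t ht
    have hlt : ∀ᵐ x ∂(volume.restrict (Ioi (0:ℝ))),
        ENNReal.ofReal (Real.exp (-c * x) * F x) < ⊤ :=
      Eventually.of_forall fun x => ENNReal.ofReal_lt_top
    have he : ∀ x, (ENNReal.ofReal (Real.exp (-c * x) * F x)).toReal • Real.exp (t * x) =
        Real.exp (-(c - t) * x) * F x := by
      intro x
      rw [ENNReal.toReal_ofReal (mul_nonneg (Real.exp_nonneg _) (hF0 x)), smul_eq_mul]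
      have : Real.exp (-(c - t) * x) = Real.exp (-c * x) * Real.exp (t * x) := by
        rw [← Real.exp_add]; congr 1; ring
      rw [this]; ring
    constructor
    · change Integrable _ ((volume.restrict (Ioi (0:ℝ))).withDensity _)
      rw [integrable_withDensity_iff_integrable_smul₀' (haem F hF) hlt]
      simp_rw [he]
      exact hF (c - t) (by rw [hc]; linarith)
    · change ∫ x, Real.exp (t * x) ∂((volume.restrict (Ioi (0:ℝ))).withDensity _) = _
      rw [integral_withDensity_eq_integral_toReal_smul₀ (haem F hF) hlt]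
      simp_rw [he]
  have hfV := hfin V hVi
  have hfW := hfin W hWi
  have hsub : ∀ F : ℝ → ℝ, (∀ x, 0 ≤ F x) →
      (∀ β, b < β → IntegrableOn (fun x => Real.exp (-β * x) * F x) (Ioi 0)) →
      {z : ℂ | z.re < 1} ⊆ {z : ℂ | z.re ∈ interior (integrableExpSet id (M F))} := by
    intro F hF0 hF z hz
    have h1 : Iio (1:ℝ) ⊆ integrableExpSet id (M F) := fun t ht => (hintM F hF0 hF t ht).1
    exact interior_mono h1 (by rw [isOpen_Iio.interior_eq]; exact hz)
  have hVa : AnalyticOnNhd ℂ (complexMGF id (M V)) {z | z.re < 1} :=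
    analyticOnNhd_complexMGF.mono (hsub V hV hVi)
  have hWa : AnalyticOnNhd ℂ (complexMGF id (M W)) {z | z.re < 1} :=
    analyticOnNhd_complexMGF.mono (hsub W hW hWi)
  have hconv : IsPreconnected {z : ℂ | z.re < 1} :=
    (convex_halfSpace_re_lt 1).isPreconnected
  have hreal : ∀ t : ℝ, t < 1 → complexMGF id (M V) t = complexMGF id (M W) t := by
    intro t ht
    rw [complexMGF_ofReal, complexMGF_ofReal]
    congr 1
    change ∫ x, Real.exp (t * x) ∂(M V) = ∫ x, Real.exp (t * x) ∂(M W)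
    rw [(hintM V hV hVi t ht).2, (hintM W hW hWi t ht).2]
    exact h (c - t) (by rw [hc]; linarith)
  have heq : EqOn (complexMGF id (M V)) (complexMGF id (M W)) {z | z.re < 1} := by
    refine hVa.eqOn_of_preconnected_of_frequently_eq hWa hconv (z₀ := ((0:ℝ) : ℂ)) (by simp) ?_
    have h_real : ∃ᶠ (x : ℝ) in 𝓝[≠] (0:ℝ), complexMGF id (M V) x = complexMGF id (M W) x := by
      apply Eventually.frequently
      have : ∀ᶠ x : ℝ in 𝓝[≠] (0:ℝ), x < 1 :=
        eventually_nhdsWithin_of_eventually_nhds (eventually_lt_nhds one_pos)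
      filter_upwards [this] with x hx
      exact hreal x hx
    rw [frequently_iff_seq_forall] at h_real ⊢
    obtain ⟨xs, hx_tendsto, hx_eq⟩ := h_real
    refine ⟨fun n ↦ xs n, ?_, fun n ↦ ?_⟩
    · rw [tendsto_nhdsWithin_iff] at hx_tendsto ⊢
      constructor
      · exact (Complex.continuous_ofReal.tendsto 0).comp hx_tendsto.1
      · simpa using hx_tendsto.2
    · simp [hx_eq]
  have hM : M V = M W := by
    apply Measure.ext_of_charFun
    ext t
    have h1 := heq (show ((t : ℂ) * Complex.I) ∈ {z : ℂ | z.re < 1} by simp)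
    rwa [complexMGF_id_mul_I, complexMGF_id_mul_I] at h1
  have hde := (withDensity_eq_iff (haem V hVi) (haem W hWi) (by
    have := (hVi c hcb).lintegral_lt_top
    exact this.ne)).mp hM
  filter_upwards [hde] with x hx
  have h1 := (ENNReal.ofReal_eq_ofReal_iff (mul_nonneg (Real.exp_nonneg _) (hV x))
    (mul_nonneg (Real.exp_nonneg _) (hW x))).mp hx
  exact mul_left_cancel₀ (Real.exp_pos _).ne' h1

/-- Right-continuous functions that agree almost everywhere on the half line agree on `[0, ∞)`. -/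
lemma eq_of_ae_of_rightCont {V W : ℝ → ℝ}
    (hV : ∀ x, 0 ≤ x → ContinuousWithinAt V (Ici x) x)
    (hW : ∀ x, 0 ≤ x → ContinuousWithinAt W (Ici x) x)
    (h : ∀ᵐ x ∂(volume.restrict (Ioi (0:ℝ))), V x = W x) :
    ∀ x, 0 ≤ x → V x = W x := by
  intro x hx
  have hfreq : ∃ᶠ y in 𝓝[Ioi x] x, V y = W y := by
    rw [ae_restrict_iff' measurableSet_Ioi] at h
    rw [Filter.frequently_iff]
    intro U hU
    obtain ⟨u, hu, hsub⟩ := (mem_nhdsGT_iff_exists_Ioo_subset (a := x)).mp hU
    have hne : ¬ (∀ᵐ y ∂(volume : Measure ℝ), y ∉ Ioo x u) := by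
      intro hcon
      have h0 : volume (Ioo x u) = 0 := by
        rw [ae_iff] at hcon
        have hs : {a : ℝ | ¬ a ∉ Ioo x u} = Ioo x u := by ext a; simp
        rwa [hs] at hcon
      rw [Real.volume_Ioo, ENNReal.ofReal_eq_zero] at h0
      have : x < u := hu
      linarith
    have hex : ∃ y, y ∈ Ioo x u ∧ V y = W y := by
      by_contra hcon
      push Not at hcon
      apply hne
      filter_upwards [h] with y hy hmem
      exact hcon y hmem (hy (lt_of_le_of_lt hx hmem.1))
    obtain ⟨y, hy, hVW⟩ := hex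
    exact ⟨y, hsub hy, hVW⟩
  have h1 : Tendsto V (𝓝[Ioi x] x) (𝓝 (V x)) := (hV x hx).mono_left (nhdsWithin_mono _ Ioi_subset_Ici_self)
  have h2 : Tendsto W (𝓝[Ioi x] x) (𝓝 (W x)) := (hW x hx).mono_left (nhdsWithin_mono _ Ioi_subset_Ici_self)
  have h3 : Tendsto (fun y => V y - W y) (𝓝[Ioi x] x) (𝓝 (V x - W x)) := h1.sub h2
  by_contra hne
  have h4 : ∀ᶠ y in 𝓝[Ioi x] x, V y - W y ≠ 0 :=
    h3.eventually (isOpen_ne.mem_nhds (sub_ne_zero.mpr hne))
  exact hfreq (h4.mono fun y hy hy2 => hy (by rw [hy2, sub_self]))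

end Pool.Agent.Lib.MP_0b691a_pr
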